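import Pool.Agent.Lib.MP_77fc3d_an.HF

/-! Herman rings of the conservative map `(x, y) ↦ (y, x + y ^ 2)`. -/

namespace Pool.Agent.Results.MP_77fc3d_an.ConservativeRings

theorem result (θ : ℝ)
    (hθ : ∃ γ : ℝ, 0 < γ ∧ ∃ τ : ℕ, ∀ (q : ℕ) (p : ℤ), 0 < q → γ / (q : ℝ) ^ τ ≤ |q * θ - p|)
    (ε : ℝ) (hε : 0 < ε) :
    ∃ h : ℝ, 0 < h ∧ ∃ φ : ℂ → ℂ × ℂ,
      DifferentiableOn ℂ φ {z : ℂ | |z.im| < h} ∧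
      (∀ z : ℂ, φ (z + 1) = φ z) ∧
      (∃ z w : ℂ, |z.im| < h ∧ |w.im| < h ∧ φ z ≠ φ w) ∧
      (∃ n : ℕ, 2 ≤ n ∧ ∀ z : ℂ, |z.im| < h →
        (fun p : ℂ × ℂ => (p.2, p.1 + p.2 ^ 2))^[n] (φ z) = φ (z + θ)) ∧
      (∀ z w : ℂ, |z.im| < h → |w.im| < h → φ z = φ w → ∃ m : ℤ, z = w + m) ∧
      (∀ z : ℂ, |z.im| < h → ‖φ z‖ < ε) ∧
      ∀ ψ : ℂ → ℂ × ℂ, DiffContOnCl ℂ ψ (Metric.ball 0 1) →
        (¬ ∀ x : ℝ, φ x = ψ (Complex.exp (2 * Real.pi * Complex.I * x))) ∧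
        ¬ ∀ x : ℝ, φ x = ψ (Complex.exp (-(2 * Real.pi * Complex.I * x))) := by
  obtain ⟨h, hh, φ, d, p, i, r, b, g, -⟩ := Pool.Agent.Lib.MP_77fc3d_an.H2.rings θ hθ ε hε
  refine ⟨h, hh, φ, d, p, ⟨1 / 2, 0, by simpa using hh, by simpa using hh, fun e => ?_⟩, r, i, b, g⟩
  obtain ⟨m, hm⟩ := i _ _ (by simpa using hh) (by simpa using hh) e
  have : (2 * m : ℂ) = 1 := by linear_combination (-2) * hm
  have : 2 * m = 1 := by exact_mod_cast this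
  omega

end Pool.Agent.Results.MP_77fc3d_an.ConservativeRings
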