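import Pool.Agent.Lib.MP_77fc3d_an.Main

/-! Herman rings of the dissipative maps `(x, y) ↦ (a y, x + y ^ 2)` for `a` arbitrarily close to `1`. -/

namespace Pool.Agent.Results.MP_77fc3d_an.HermanRings

theorem result (θ : ℝ) (hθ : Irrational θ)
    (hb : ∃ M : ℝ, ∀ (n : ℕ) (b : ℝ), (GenContFract.of θ).partDens.get? n = some b → b ≤ M)
    (ε : ℝ) (hε : 0 < ε) :
    ∃ a : ℂ, a ≠ 0 ∧ ‖a‖ < 1 ∧ ‖a - 1‖ < ε ∧
      ∃ h : ℝ, 0 < h ∧ ∃ φ : ℂ → ℂ × ℂ,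
        DifferentiableOn ℂ φ {z : ℂ | |z.im| < h} ∧
        (∀ z : ℂ, φ (z + 1) = φ z) ∧
        (∃ z w : ℂ, |z.im| < h ∧ |w.im| < h ∧ φ z ≠ φ w) ∧
        (∃ n : ℕ, 2 ≤ n ∧ ∀ z : ℂ, |z.im| < h →
          (fun p : ℂ × ℂ => (a * p.2, p.1 + p.2 ^ 2))^[n] (φ z) = φ (z + θ)) ∧
        (∀ z w : ℂ, |z.im| < h → |w.im| < h → φ z = φ w → ∃ m : ℤ, z = w + m) ∧
        ∀ ψ : ℂ → ℂ × ℂ, DiffContOnCl ℂ ψ (Metric.ball 0 1) →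
          (¬ ∀ x : ℝ, φ x = ψ (Complex.exp (2 * Real.pi * Complex.I * x))) ∧
          ¬ ∀ x : ℝ, φ x = ψ (Complex.exp (-(2 * Real.pi * Complex.I * x))) := by
  obtain ⟨a, h0, h1, h2, h, hh, φ, d, p, i, r, g⟩ := Pool.Agent.Lib.MP_77fc3d_an.main θ hθ hb ε hε
  refine ⟨a, h0, h1, h2, h, hh, φ, d, p, ⟨1 / 2, 0, by simpa using hh, by simpa using hh, fun e => ?_⟩,
    r, i, g⟩
  obtain ⟨m, hm⟩ := i _ _ (by simpa using hh) (by simpa using hh) e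
  have : (2 * m : ℂ) = 1 := by linear_combination (-2) * hm
  have : 2 * m = 1 := by exact_mod_cast this
  omega

end Pool.Agent.Results.MP_77fc3d_an.HermanRings
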