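import Pool.Agent.Lib.MP_77fc3d_an.HF

/-! A Herman ring of `(x, y) ↦ (y, x + y ^ 2)` that does not continue to the dissipative maps. -/

namespace Pool.Agent.Results.MP_77fc3d_an.NoContinuation

theorem result (θ : ℝ)
    (hθ : ∃ γ : ℝ, 0 < γ ∧ ∃ τ : ℕ, ∀ (q : ℕ) (p : ℤ), 0 < q → γ / (q : ℝ) ^ τ ≤ |q * θ - p|) :
    ∃ h : ℝ, 0 < h ∧ ∃ φ : ℂ → ℂ × ℂ,
      DifferentiableOn ℂ φ {z : ℂ | |z.im| < h} ∧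
      (∀ z : ℂ, φ (z + 1) = φ z) ∧
      (∃ z w : ℂ, |z.im| < h ∧ |w.im| < h ∧ φ z ≠ φ w) ∧
      (∃ n : ℕ, 2 ≤ n ∧ ∀ z : ℂ, |z.im| < h →
        (fun p : ℂ × ℂ => (p.2, p.1 + p.2 ^ 2))^[n] (φ z) = φ (z + θ)) ∧
      ∀ (c : ℂ) (h' : ℝ), 0 < h' → |c.im| + h' ≤ h → ∃ δ : ℝ, 0 < δ ∧
        ∀ a : ℂ, ‖a‖ < 1 → ∀ m : ℕ, 1 ≤ m → ∀ (t : ℝ) (ψ : ℂ → ℂ × ℂ),
          DifferentiableOn ℂ ψ {z : ℂ | |z.im| < h'} → (∀ z : ℂ, ψ (z + 1) = ψ z) →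
          (∀ z : ℂ, |z.im| < h' →
            (fun p : ℂ × ℂ => (a * p.2, p.1 + p.2 ^ 2))^[m] (ψ z) = ψ (z + t)) →
          ∃ z : ℂ, |z.im| < h' ∧ δ ≤ ‖ψ z - φ (z + c)‖ := by
  obtain ⟨h, hh, φ, d, p, i, r, -, -, g⟩ := Pool.Agent.Lib.MP_77fc3d_an.H2.rings θ hθ 1 one_pos
  refine ⟨h, hh, φ, d, p, ⟨1 / 2, 0, by simpa using hh, by simpa using hh, fun e => ?_⟩, r, g⟩
  obtain ⟨m, hm⟩ := i _ _ (by simpa using hh) (by simpa using hh) e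
  have : (2 * m : ℂ) = 1 := by linear_combination (-2) * hm
  have : 2 * m = 1 := by exact_mod_cast this
  omega

end Pool.Agent.Results.MP_77fc3d_an.NoContinuation
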